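import Pool.Agent.Helper98.EY.StmtsC
import Pool.Agent.Helper52.EY.MAINN2

/-!
# MAINN4: cutoff for nestling and marginal nestling ballistic laws
-/

namespace Pool.Agent.Helper98.EX

open Finset MeasureTheory ProbabilityTheory Filter
open scoped Topology

/-- regime II, no moment of order larger than one -/
theorem mainn4_c2 {M T as κ γ L : ℝ} (hM : 1 ≤ M) (hγ : 0 < γ) (hγ1 : γ ≤ 1 / 100)
    (hL0 : 1 ≤ L) (hL : 2 * L ^ 14 ≤ M ^ (1 / 5 : ℝ))
    (hT0 : 0 < T) (hT2 : M ^ (9 / 8 : ℝ) ≤ T) (hκ : κ = L ^ 9 * T / M) (has0 : 0 < as)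
    (has1 : as ≤ M ^ (1 + 3 * γ))
    (has : as ≤ M ^ (2 * γ) * (κ ^ 2 + M ^ (1 / 4 : ℝ))) :
    M ^ (1 + 2 * γ) * as ≤ T ^ (3 / 2 : ℝ) := by
  have hM0 : 0 < M := by linarith
  have hκ0 : 0 < κ := by rw [hκ]; positivity
  have hκ8 : M ^ (1 / 8 : ℝ) ≤ κ := by
    rw [hκ, le_div_iff₀ hM0]
    calc M ^ (1 / 8 : ℝ) * M = M ^ (9 / 8 : ℝ) := by
          nth_rewrite 2 [← Real.rpow_one M]
          rw [← Real.rpow_add hM0]; norm_num
      _ ≤ 1 * T := by linarith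
      _ ≤ L ^ 9 * T := mul_le_mul_of_nonneg_right (one_le_pow₀ hL0) hT0.le
  have hκ4 : M ^ (1 / 4 : ℝ) ≤ κ ^ 2 := by
    have := pow_le_pow_left₀ (by positivity) hκ8 2
    rw [← Real.rpow_natCast (M ^ (1 / 8 : ℝ)), ← Real.rpow_mul hM0.le] at this
    norm_num at this
    exact this
  have hp2 : 0 < M ^ (2 * γ) := Real.rpow_pos_of_pos hM0 _
  have has2 : as ≤ M ^ (2 * γ) * (2 * κ ^ 2) :=
    has.trans (mul_le_mul_of_nonneg_left (by linarith) hp2.le)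
  have e1 : as = as ^ (1 / 4 : ℝ) * as ^ (3 / 4 : ℝ) := by
    rw [← Real.rpow_add has0]; norm_num
  have e2 : as ^ (1 / 4 : ℝ) ≤ M ^ ((1 + 3 * γ) / 4) := by
    have h2 := Real.rpow_le_rpow has0.le has1 (by norm_num : (0:ℝ) ≤ 1 / 4)
    rw [← Real.rpow_mul hM0.le] at h2
    refine h2.trans (le_of_eq ?_)
    ring_nf
  have e3 : as ^ (3 / 4 : ℝ) ≤ M ^ (3 / 2 * γ) *
      (2 * (L ^ 14 * T ^ (3 / 2 : ℝ) * M ^ (-(3 / 2) : ℝ))) := by
    have h2 := Real.rpow_le_rpow has0.le has2 (by norm_num : (0:ℝ) ≤ 3 / 4)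
    rw [Real.mul_rpow hp2.le (by positivity), ← Real.rpow_mul hM0.le] at h2
    refine h2.trans ?_
    have h3 : M ^ (2 * γ * (3 / 4)) = M ^ (3 / 2 * γ) := by ring_nf
    rw [h3]
    refine mul_le_mul_of_nonneg_left ?_ (by positivity)
    rw [Real.mul_rpow (by norm_num) (by positivity)]
    have h4 : (2:ℝ) ^ (3 / 4 : ℝ) ≤ 2 := by
      calc (2:ℝ) ^ (3 / 4 : ℝ) ≤ (2:ℝ) ^ (1 : ℝ) :=
            Real.rpow_le_rpow_of_exponent_le (by norm_num) (by norm_num)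
        _ = 2 := Real.rpow_one 2
    have h5 : (κ ^ 2) ^ (3 / 4 : ℝ) = κ ^ (3 / 2 : ℝ) := by
      rw [← Real.rpow_natCast κ 2, ← Real.rpow_mul hκ0.le]; norm_num
    have h6 : κ ^ (3 / 2 : ℝ) ≤ L ^ 14 * T ^ (3 / 2 : ℝ) * M ^ (-(3 / 2) : ℝ) := by
      rw [hκ, div_eq_mul_inv, Real.mul_rpow (by positivity) (by positivity),
        Real.mul_rpow (by positivity) (by positivity), Real.inv_rpow hM0.le, ← Real.rpow_neg hM0.le]
      apply mul_le_mul_of_nonneg_right _ (by positivity)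
      apply mul_le_mul_of_nonneg_right _ (by positivity)
      rw [← Real.rpow_natCast L 9, ← Real.rpow_mul (by linarith), ← Real.rpow_natCast L 14]
      exact Real.rpow_le_rpow_of_exponent_le hL0 (by norm_num)
    rw [h5]
    exact mul_le_mul h4 h6 (by positivity) (by norm_num)
  have hT3 : 0 < T ^ (3 / 2 : ℝ) := Real.rpow_pos_of_pos hT0 _
  calc M ^ (1 + 2 * γ) * as = M ^ (1 + 2 * γ) * (as ^ (1 / 4 : ℝ) * as ^ (3 / 4 : ℝ)) := by
        rw [← e1]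
    _ ≤ M ^ (1 + 2 * γ) * (M ^ ((1 + 3 * γ) / 4) *
        (M ^ (3 / 2 * γ) * (2 * (L ^ 14 * T ^ (3 / 2 : ℝ) * M ^ (-(3 / 2) : ℝ))))) := by
        refine mul_le_mul_of_nonneg_left (mul_le_mul e2 e3 (by positivity) (by positivity))
          (by positivity)
    _ = (2 * L ^ 14) * (M ^ (1 + 2 * γ) * (M ^ ((1 + 3 * γ) / 4) *
        (M ^ (3 / 2 * γ) * M ^ (-(3 / 2) : ℝ)))) * T ^ (3 / 2 : ℝ) := by ring
    _ ≤ (M ^ (1 / 5 : ℝ)) * (M ^ (1 + 2 * γ) * (M ^ ((1 + 3 * γ) / 4) *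
        (M ^ (3 / 2 * γ) * M ^ (-(3 / 2) : ℝ)))) * T ^ (3 / 2 : ℝ) := by
        apply mul_le_mul_of_nonneg_right _ hT3.le
        exact mul_le_mul_of_nonneg_right hL (by positivity)
    _ ≤ 1 * T ^ (3 / 2 : ℝ) := by
        apply mul_le_mul_of_nonneg_right _ hT3.le
        rw [← Real.rpow_add hM0, ← Real.rpow_add hM0, ← Real.rpow_add hM0, ← Real.rpow_add hM0]
        exact Real.rpow_le_one_of_one_le_of_nonpos hM (by linarith)
    _ = T ^ (3 / 2 : ℝ) := one_mul _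

/-- regime IV -/
theorem mainn4_c4 {M T as γ : ℝ} (hM : 1 ≤ M) (hγ1 : γ ≤ 1 / 100)
    (hT2 : M ^ (17 / 8 : ℝ) ≤ T) (has1 : as ≤ M ^ (1 + 3 * γ)) :
    M ^ (2 * γ) * as ≤ Real.sqrt T := by
  have hM0 : 0 < M := by linarith
  have h1 : M ^ (2 * γ) * as ≤ M ^ (17 / 16 : ℝ) := by
    calc M ^ (2 * γ) * as ≤ M ^ (2 * γ) * M ^ (1 + 3 * γ) :=
          mul_le_mul_of_nonneg_left has1 (by positivity)
      _ = M ^ (2 * γ + (1 + 3 * γ)) := by rw [← Real.rpow_add hM0]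
      _ ≤ M ^ (17 / 16 : ℝ) := Real.rpow_le_rpow_of_exponent_le hM (by linarith)
  refine h1.trans ?_
  apply Real.le_sqrt_of_sq_le
  refine le_trans (le_of_eq ?_) hT2
  rw [← Real.rpow_natCast, ← Real.rpow_mul hM0.le]
  norm_num

theorem st_MAINN4 (hENV4 : ST_ENV4) (hSTR : ST_STR) (hDT1 : ST_DT1) (hDT3 : ST_DT3)
    (hDT4 : ST_DT4) (hGS : ST_GS)
    (hCAPLOW : ST_CAPLOW) (hCAPM : ST_CAPM) (hGAINC : ST_GAINC) (hSTRLOW : ST_STRLOW)
    (hLOW : ST_LOW) (hSTATTAIL : ST_STATTAIL) (hSTC : ST_STC) (hCUT : ST_CUT) : ST_MAINN4 := by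
  intro Ω _ P X hX hMom hnest c ε δ ηp hc hε hε2 hδ hδ1 hηp
  obtain ⟨γ, hγd⟩ : ∃ γ : ℝ, γ = 1 / 200 := ⟨_, rfl⟩
  have hγ : 0 < γ := by rw [hγd]; norm_num
  have hγ1 : γ ≤ 1 / 100 := by rw [hγd]; norm_num
  have hγ1' : γ ≤ 1 := by linarith
  obtain ⟨η0, Cs, C1, c1, c2, m0, hη0, hη01, hCs, hC1, hc1, hc11, hc2, hc24, Ne, hE⟩ :=
    hENV4 Ω P X hX hMom c (ηp / 2) (ε / 32) γ hc (by positivity) (by positivity) hγ hγ1'
  obtain ⟨K, Nd, hK, hD⟩ :=
    hDT1 ε δ γ η0 Cs C1 c1 m0 hε (by linarith) hδ hγ hγ1' hη0 hη01 hCs hC1 hc1 hc11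
  obtain ⟨N3, hD3⟩ :=
    hDT3 ε δ γ η0 Cs C1 c1 c m0 hε (by linarith) hδ hγ hγ1' hη0 hη01 hCs hC1 hc1 hc11 hc
  obtain ⟨cg, Ngc, hcg, hGC⟩ := hGAINC ε c c2 C1 m0 hε hc hc2
  obtain ⟨N4, hD4⟩ :=
    hDT4 ε δ γ η0 Cs C1 c1 c cg m0 hε (by linarith) hδ hδ1.le hγ hγ1 hη0 hη01 hCs hC1 hc1 hc11 hc
      hcg
  obtain ⟨cs, hcs, hS⟩ := hSTRLOW ε c c2 m0 hε hc hc2
  obtain ⟨m', hm', hm'K⟩ : ∃ m' : ℕ, 1 ≤ m' ∧ K ≤ cs * m' := by
    refine ⟨⌈K / cs⌉₊ + 1, by omega, ?_⟩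
    have h1 := Nat.le_ceil (K / cs)
    rw [div_le_iff₀ hcs] at h1
    push_cast
    nlinarith
  obtain ⟨Ns, hS⟩ := hS m' hm'
  obtain ⟨Nr, hR⟩ := hSTR Ω P X hX hnest (ηp / 2) c2 m' (by positivity) hc2 hc24 hm'
  obtain ⟨Ng, hG⟩ := hGS γ hγ hγ1'
  obtain ⟨Nt, hT⟩ := hCAPLOW ε c c2 m0 hε hc hc2
  obtain ⟨Nm, hM⟩ := hCAPM
  obtain ⟨cl, Nl, hcl, hL⟩ := hLOW ε c m0 hε hc
  obtain ⟨Nc, hC⟩ := hCUT ε δ cl hε hε2 hδ hδ1 hcl
  -- asymptotic inequalities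
  have ev1 : ∀ᶠ N : ℕ in atTop, (N : ℝ) ^ (-5 : ℝ) ≤ ε / 8 := by
    have h1 : Tendsto (fun N : ℕ => (N : ℝ) ^ (-5 : ℝ)) atTop (𝓝 0) :=
      (tendsto_rpow_neg_atTop (by norm_num : (0 : ℝ) < 5)).comp tendsto_natCast_atTop_atTop
    exact h1.eventually_le_const (by positivity)
  have ev2 : ∀ᶠ N : ℕ in atTop, 3 * (N : ℝ) ^ (3 / 10 : ℝ) ≤ Real.sqrt (K * N) := by
    have h1 : Tendsto (fun N : ℕ => (N : ℝ) ^ (1 / 5 : ℝ)) atTop atTop :=
      (tendsto_rpow_atTop (by norm_num : (0 : ℝ) < 1 / 5)).comp tendsto_natCast_atTop_atTop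
    filter_upwards [h1.eventually_ge_atTop (3 / Real.sqrt K), eventually_ge_atTop 1] with N h2 h3
    have hN : (0 : ℝ) < N := by exact_mod_cast h3
    have hsK : 0 < Real.sqrt K := Real.sqrt_pos.mpr hK
    rw [div_le_iff₀ hsK] at h2
    rw [Real.sqrt_mul hK.le, Real.sqrt_eq_rpow (N : ℝ)]
    have e1 : (N : ℝ) ^ (1 / 2 : ℝ) = (N : ℝ) ^ (1 / 5 : ℝ) * (N : ℝ) ^ (3 / 10 : ℝ) := by
      rw [← Real.rpow_add hN]; norm_num
    rw [e1]
    have := mul_le_mul_of_nonneg_right h2 (Real.rpow_nonneg hN.le (3 / 10 : ℝ))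
    linarith
  have ev3 := mainn2_log 3 (1 / 5) 18 (by norm_num)
  have ev4 := mainn2_log 2 (1 / 5) 14 (by norm_num)
  have ev5 := mainn2_log 3 (1 / 2) 2 (by norm_num)
  obtain ⟨N1, hN1⟩ := eventually_atTop.1 (ev1.and (ev2.and (ev3.and (ev4.and (ev5.and
    ((eventually_ge_atTop 3).and
    ((eventually_ge_atTop Ne).and ((eventually_ge_atTop Nd).and ((eventually_ge_atTop Ns).and
    ((eventually_ge_atTop Nr).and ((eventually_ge_atTop Ng).and ((eventually_ge_atTop Nt).and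
    ((eventually_ge_atTop Nl).and ((eventually_ge_atTop Nc).and ((eventually_ge_atTop N3).and
    ((eventually_ge_atTop N4).and ((eventually_ge_atTop Ngc).and
    (eventually_ge_atTop Nm))))))))))))))))))
  refine ⟨N1, fun N k hN hk1 hk2 => ?_⟩
  obtain ⟨i1, i2, i3, i4, i5, iN3, iNe, iNd, iNs, iNr, iNg, iNt, iNl, iNc, iN3', iN4, iNgc, iNm⟩ :=
    hN1 N hN
  have hNpos : (0 : ℝ) < N := by
    have : 0 < N := by omega
    exact_mod_cast this
  have hN1r : (1 : ℝ) ≤ N := by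
    have : 1 ≤ N := by omega
    exact_mod_cast this
  have hlog1 : 1 ≤ Real.log N := by
    rw [Real.le_log_iff_exp_le hNpos]
    have : (3 : ℝ) ≤ N := by exact_mod_cast iN3
    exact (Real.exp_one_lt_d9.le.trans (by norm_num)).trans this
  have hkN : k ≤ N := by
    have : (k : ℝ) ≤ N := by nlinarith
    exact_mod_cast this
  have hE' := hE N k iNe hk1 hk2
  have hR' := hR N iNr
  refine le_trans (measure_mono ?_) (le_trans (measure_union_le _ _)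
    (le_trans (add_le_add hE' hR') ?_))
  swap
  · rw [← ENNReal.ofReal_add (by positivity) (by positivity)]
    exact ENNReal.ofReal_le_ofReal (by linarith)
  intro ω hω
  by_contra hcon
  rw [Set.mem_union, not_or] at hcon
  obtain ⟨hcon1, hcon2⟩ := hcon
  simp only [Set.mem_ofPred_eq, not_not] at hcon1 hcon2
  obtain ⟨w, as, hGE, hcen, hnear, has1, hcapb, hcapas, hns1, hns2, ⟨p, bb, hBE, hSep⟩, hexb⟩ :=
    hcon1
  have hge := hBE.ge
  obtain ⟨A, hA1, hA2, hA3⟩ := hcon2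
  obtain ⟨π, hπ, hbad⟩ := hω
  apply hbad
  have hw : ∀ x, 0 < EE X ω x ∧ EE X ω x ≤ 1 := fun x => hX.rng x ω
  have hadm := hGE.adm
  obtain ⟨_, hGt, _, _⟩ := hG N k (rE (EE X ω)) (lE (EE X ω)) w m0 η0 as Cs C1 c1 (ε / 32) iNg hη0
    hGE
  have hm0 : (N - k) + m0 ≤ N := by
    have h1 := hGE.m0w
    have h2 := hGE.hB
    omega
  refine hC N k (EE X ω) π (sorted 0 (N - k - m0) (N - k + m0) N) iNc hkN hw hπ
    (mainn2_inc k _ _ (by omega)) ?_ ?_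
  · exact mainn2_stat hSTATTAIL hSTC (by omega) hkN hw hπ hm0 (hGt.trans (by linarith))
  · intro m1 hm1
    have low1 := hL N k _ _ m1 iNl hk1 hk2 hadm hm1
    refine ⟨low1, ?_⟩
    have low2 := hS N k _ _ m1 A iNs hk1 hk2 hadm hA1 hA2 hA3 hm1
    obtain ⟨T, hTd⟩ : ∃ T : ℝ, T = (m1 : ℝ) / (2 * N) := ⟨_, rfl⟩
    have hKN : K * N ≤ T := by
      rw [hTd]
      refine le_trans ?_ low2
      exact mul_le_mul_of_nonneg_right hm'K hNpos.le
    have hT0 : 0 < T := lt_of_lt_of_le (by positivity) hKN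
    have has0 : 0 < as := lt_of_lt_of_le one_pos hGE.as1
    obtain ⟨κ, hκd⟩ : ∃ κ : ℝ, κ = max ((N : ℝ) ^ γ) (Real.log N ^ 9 * T / N) := ⟨_, rfl⟩
    have hcapl : CAPc N (rE (EE X ω)) (lE (EE X ω)) κ := by
      refine hcapb κ (by rw [hκd]; exact le_max_left _ _) ?_
      intro A' B' hA' hAB' hB' hB''
      obtain ⟨y, hy1, hy2, hy3, hy4⟩ := hT N k _ _ m1 A' B' iNt hk1 hk2 hadm hA' hAB' hB' hB'' hm1
      rw [← hTd] at hy3 hy4
      have hle : Real.log N ^ 9 * T / N ≤ κ := by rw [hκd]; exact le_max_right _ _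
      exact ⟨y, hy1, hy2, hy3.trans hle, hy4.trans hle⟩
    have has2 := hcapas κ hcapl
    rcases le_or_gt T ((N : ℝ) ^ (9 / 8 : ℝ)) with hc1' | hc1'
    · refine hD N k _ _ w m1 as iNd hGE hm1 (by rw [← hTd]; exact hKN) ?_
      rw [← hTd]
      exact mainn2_c1 hN1r hγ hγ1 i2 (by linarith) i3 hT0 hKN hc1' hκd has2
    · rcases le_or_gt ((N : ℝ) ^ 2 / Real.log N ^ 200) T with hc2' | hc2'
      · rcases le_or_gt T ((N : ℝ) ^ (17 / 8 : ℝ)) with hc3' | hc3'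
        · -- regime of barriers
          refine hD4 N k (rE (EE X ω)) (lE (EE X ω)) w m1 as p bb iN4 hk1 hk2 hGE hBE hSep has1
            hns1 hns2 ?_ hm1 (by rw [← hTd]; exact hc2') (by rw [← hTd]; exact hc3')
          intro i hi1 hi2
          have hslow := hBE.slow i hi1 hi2
          obtain ⟨s1, s2, _, _⟩ := hSep i hi1 hi2
          have hwl := hge.wlog
          have hw2 : ((w + 2 : ℕ) : ℝ) ≤ (N : ℝ) ^ (1 / 2 : ℝ) := by
            refine le_trans ?_ i5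
            push_cast
            have : 1 ≤ Real.log N ^ 2 := one_le_pow₀ hlog1
            linarith
          have hb1 : w + 2 ≤ bb i := by
            have : ((w + 2 : ℕ) : ℝ) ≤ (bb i : ℝ) := hw2.trans s1
            exact_mod_cast this
          have hb2 : bb i + (w + 2) ≤ N := by
            have : ((bb i + (w + 2) : ℕ) : ℝ) ≤ (N : ℝ) := by
              push_cast at hw2 ⊢
              linarith
            exact_mod_cast this
          obtain ⟨b', q1, q2, q3, q4⟩ := hexb (bb i) hb1 hb2 hslow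
          have := hGC N k b' w m1 (rE (EE X ω)) (lE (EE X ω)) iNgc hk1 hk2 hadm hge q3 q1 q2 hm1
            (by rw [← hTd]; exact hc2') (by rw [← hTd]; exact hc3')
          exact this.trans q4
        · refine hD N k _ _ w m1 as iNd hGE hm1 (by rw [← hTd]; exact hKN) ?_
          rw [← hTd]
          exact mainn4_c4 hN1r hγ1 hc3'.le has1
      · have hκ8 : (N : ℝ) ^ (1 / 8 : ℝ) ≤ Real.log N ^ 9 * T / N := by
          rw [le_div_iff₀ hNpos]
          calc (N : ℝ) ^ (1 / 8 : ℝ) * N = (N : ℝ) ^ (9 / 8 : ℝ) := by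
                nth_rewrite 2 [← Real.rpow_one (N : ℝ)]
                rw [← Real.rpow_add hNpos]; norm_num
            _ ≤ 1 * T := by linarith
            _ ≤ Real.log N ^ 9 * T := mul_le_mul_of_nonneg_right (one_le_pow₀ hlog1) hT0.le
        have hκe : κ = Real.log N ^ 9 * T / N := by
          rw [hκd]
          apply max_eq_right
          exact (Real.rpow_le_rpow_of_exponent_le hN1r (by linarith)).trans hκ8
        have hκ1 : 1 ≤ κ := by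
          rw [hκe]
          exact (Real.one_le_rpow hN1r (by norm_num)).trans hκ8
        obtain ⟨-, hM2, hM3⟩ := hM N (rE (EE X ω)) (lE (EE X ω)) iNm hadm hGE.rlow2 hGE.rub
        have hcapm : CAPc N (rE (EE X ω)) (modl N (lE (EE X ω))) (κ + 1) := by
          intro A' B' h1 h2 h3 h4
          obtain ⟨y, hy1, hy2, hy3, hy4⟩ := hcapl A' B' h1 h2 h3 h4
          refine ⟨y, hy1, hy2, ?_, ?_⟩
          · exact (hM2 y B' hy2 h3).2.trans (by linarith)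
          · exact (hM3 A' y h1 hy1 (by omega)).2.trans (by linarith)
        refine hD3 N k (rE (EE X ω)) (lE (EE X ω)) w m1 as (κ + 1) iN3' hk1 hk2 hGE hge hcen hnear
          hcapm ?_ hm1 ?_ ?_ ?_
        · rw [← hTd]
          have : 2 * Real.log N ^ 9 * T / N = 2 * κ := by rw [hκe]; ring
          rw [this]; linarith
        · rw [← hTd]; exact hc1'.le
        · rw [← hTd]; exact hc2'.le
        · rw [← hTd]
          exact mainn4_c2 hN1r hγ hγ1 hlog1 i4 hT0 hc1'.le hκe has0 has1 has2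

end Pool.Agent.Helper98.EX
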